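import Pool.Agent.W2helper83.BT.Defs3
import Pool.Agent.W2helper53.BT.Ratio

/-!
# Project BT3, piece POW2
-/

set_option autoImplicit false

namespace Pool.Agent.W2helper92.BT3

open IsDedekindDomain NumberField
open Pool.Agent.W2helper83.BT

/-- **POW2.** -/
theorem pow2 : POW2 := by
  classical
  intro hS hR hF K _ _ S hSf r hr
  obtain ⟨T, hT0, hT⟩ := hS K S hSf
  have hrne : ∀ i : Fin 4, r 4 - r i.castSucc ≠ 0 := by
    intro i h
    have h1 := hr (sub_eq_zero.1 h)
    have h2 := i.castSucc_lt_last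
    rw [← h1] at h2
    exact lt_irrefl _ h2
  -- the elements whose square roots are adjoined
  let T2 : Finset K := (T ×ˢ (Finset.univ : Finset (Fin 4))).image fun p =>
    (r 4 - r p.2.castSucc)⁻¹ * p.1
  obtain ⟨M, _, _, _, hM⟩ := hR K T2 2 (by norm_num)
  let e : Fin 4 → K := fun i => -(r 4 - r i.castSucc)⁻¹
  have he : Function.Injective e := by
    intro i j h
    have h1 := inv_injective (neg_injective h)
    exact Fin.castSucc_injective _ (hr (sub_right_injective h1))
  have heM : ∀ i j : Fin 4, i ≠ j → algebraMap K M (e i) ≠ algebraMap K M (e j) :=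
    fun i j hij h => hij (he ((algebraMap K M).injective h))
  have hfive := hF M (algebraMap K M (e 0)) (algebraMap K M (e 1)) (algebraMap K M (e 2))
    (algebraMap K M (e 3)) (heM 0 1 (by decide)) (heM 0 2 (by decide)) (heM 0 3 (by decide))
    (heM 1 2 (by decide)) (heM 1 3 (by decide)) (heM 2 3 (by decide))
  have hinj : Function.Injective (fun x : K => algebraMap K M ((x - r 4)⁻¹)) := by
    intro x y h
    exact sub_left_injective (inv_injective ((algebraMap K M).injective h))
  refine (hfive.preimage (f := fun x : K => algebraMap K M ((x - r 4)⁻¹)) hinj.injOn).subset ?_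
  rintro ρ ⟨hρ, hval⟩
  have key : ∀ i : Fin 4, ∃ s : M,
      algebraMap K M ((ρ - r 4)⁻¹) - algebraMap K M (e i) = s ^ 2 := by
    intro i
    have h4 : ρ - r 4 ≠ 0 := sub_ne_zero.2 (hρ 4)
    have hi : ρ - r i.castSucc ≠ 0 := sub_ne_zero.2 (hρ _)
    have hq : (ρ - r i.castSucc) / (ρ - r 4) ≠ 0 := div_ne_zero hi h4
    obtain ⟨t, ht, b, hb, hβ⟩ := hT (Units.mk0 _ hq) (by
      intro v hv
      obtain ⟨g, hg, hgv⟩ := hval i.castSucc 4 v hv
      exact Pool.Agent.W2helper53.BT.dvd_order hq hg v hgv)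
    rw [Units.val_mk0] at hβ
    obtain ⟨θ, hθ⟩ := hM ((r 4 - r i.castSucc)⁻¹ * t) (Finset.mem_image.2 ⟨(t, i),
      Finset.mem_product.2 ⟨ht, Finset.mem_univ _⟩, rfl⟩)
    refine ⟨θ * algebraMap K M b, ?_⟩
    rw [mul_pow, hθ, ← map_pow, ← map_mul, ← map_sub]
    congr 1
    have hz := hrne i
    have e2 : (ρ - r 4)⁻¹ - e i =
        (r 4 - r i.castSucc)⁻¹ * ((ρ - r i.castSucc) / (ρ - r 4)) := by
      simp only [e]
      field_simp
      ring
    rw [e2, hβ]
    ring
  exact ⟨key 0, key 1, key 2, key 3⟩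

end Pool.Agent.W2helper92.BT3
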